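import Mathlib

/-!
# Tiling the 3-cube with `n` nearly equal cubes of at most three sizes
-/

set_option autoImplicit false

namespace Pool.Agent.Results.MP_695dce_co.ThreeSizes

open Set Filter Topology

/-- the closed axis-parallel cube with lower corner `x` and side `a` -/
def cube (x : Fin 3 → ℝ) (a : ℝ) : Set (Fin 3 → ℝ) := Icc x (fun i => x i + a)

/-- The `n` cubes `cube (x i) (a i)` (of positive side lengths) tile the unit cube `[0,1]^3`. -/
def IsTiling (n : ℕ) (x : Fin n → Fin 3 → ℝ) (a : Fin n → ℝ) : Prop :=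
  (∀ i, 0 < a i) ∧
    (∀ i j, i ≠ j → Disjoint (interior (cube (x i) (a i))) (interior (cube (x j) (a j)))) ∧
    ⋃ i, cube (x i) (a i) = Icc 0 1

/-- the ratio of the largest to the smallest side length -/
noncomputable def rho {n : ℕ} (a : Fin n → ℝ) : ℝ := (⨆ i, a i) / ⨅ i, a i

/-! ### Integer tilings -/

/-- a cell lies in a cube -/
def InCube (u c : Fin 3 → ℕ) (a : ℕ) : Prop := ∀ i, c i ≤ u i ∧ u i < c i + a

/-- an exact tiling of the cells of `[0, L)^3` by cubes of sides `p, p + 1, p + 2` indexed by `ι` -/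
structure IntTiling (p L : ℕ) (ι : Type) where
  c : ι → Fin 3 → ℕ
  a : ι → ℕ
  size : ∀ i, a i = p ∨ a i = p + 1 ∨ a i = p + 2
  inside : ∀ i j, c i j + a i ≤ L
  cover : ∀ u : Fin 3 → ℕ, (∀ j, u j < L) → ∃ i, InCube u (c i) (a i)
  uniq : ∀ (u : Fin 3 → ℕ) (i i' : ι), InCube u (c i) (a i) → InCube u (c i') (a i') → i = i'

lemma inCube_grid {u : Fin 3 → ℕ} {w : Fin 3 → ℕ} {b : ℕ} (hb : 0 < b) :
    InCube u (fun j => w j * b) b ↔ ∀ j, u j / b = w j := by
  constructor
  · intro h j
    have := h j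
    refine Nat.div_eq_of_lt_le this.1 ?_
    rw [add_mul, one_mul]
    exact this.2
  · intro h j
    have h1 := h j
    constructor
    · change w j * b ≤ u j
      rw [← h1]
      exact Nat.div_mul_le_self _ _
    · change u j < w j * b + b
      rw [← h1]
      exact Nat.lt_div_mul_add hb

/-- the grid with side `b` in the cube of side `m b` -/
def gridTiling (p m b : ℕ) (hb0 : 0 < b) (hb : b = p ∨ b = p + 1 ∨ b = p + 2) :
    IntTiling p (m * b) (Fin 3 → Fin m) where
  c w j := (w j : ℕ) * b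
  a _ := b
  size _ := hb
  inside w j := by
    have h1 : (w j : ℕ) + 1 ≤ m := (w j).2
    calc (w j : ℕ) * b + b = ((w j : ℕ) + 1) * b := by ring
      _ ≤ m * b := Nat.mul_le_mul_right b h1
  cover u hu := by
    refine ⟨fun j => ⟨u j / b, ?_⟩, (inCube_grid hb0).2 (fun j => rfl)⟩
    rw [Nat.div_lt_iff_lt_mul hb0]
    exact hu j
  uniq u w w' h h' := by
    funext j
    apply Fin.ext
    rw [← (inCube_grid hb0 (w := fun j => (w j : ℕ))).1 h j,
      ← (inCube_grid hb0 (w := fun j => (w' j : ℕ))).1 h' j]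

/-- a cube of side `p (p + 2)` with a block of side `p (p + 1)` cut into cubes of side `p + 1` and
the rest into cubes of side `p` -/
def mixTiling (p : ℕ) (hp : 0 < p) :
    IntTiling p (p * (p + 2))
      ((Fin 3 → Fin p) ⊕ {w : Fin 3 → Fin (p + 2) // ¬ ∀ j, (w j : ℕ) < p + 1}) where
  c := Sum.elim (fun w j => (w j : ℕ) * (p + 1)) (fun w j => (w.1 j : ℕ) * p)
  a := Sum.elim (fun _ => p + 1) (fun _ => p)
  size i := by
    rcases i with w | w
    · exact Or.inr (Or.inl rfl)
    · exact Or.inl rfl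
  inside i j := by
    rcases i with w | w
    · change (w j : ℕ) * (p + 1) + (p + 1) ≤ p * (p + 2)
      have h1 : (w j : ℕ) + 1 ≤ p := (w j).2
      calc (w j : ℕ) * (p + 1) + (p + 1) = ((w j : ℕ) + 1) * (p + 1) := by ring
        _ ≤ p * (p + 1) := Nat.mul_le_mul_right _ h1
        _ ≤ p * (p + 2) := Nat.mul_le_mul_left _ (by omega)
    · change (w.1 j : ℕ) * p + p ≤ p * (p + 2)
      have h1 : (w.1 j : ℕ) + 1 ≤ p + 2 := (w.1 j).2
      calc (w.1 j : ℕ) * p + p = ((w.1 j : ℕ) + 1) * p := by ring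
        _ ≤ (p + 2) * p := Nat.mul_le_mul_right _ h1
        _ = p * (p + 2) := by ring
  cover u hu := by
    by_cases h : ∀ j, u j < p * (p + 1)
    · refine ⟨Sum.inl (fun j => ⟨u j / (p + 1), ?_⟩), ?_⟩
      · rw [Nat.div_lt_iff_lt_mul (by omega)]
        exact h j
      · exact (inCube_grid (by omega)).2 (fun j => rfl)
    · refine ⟨Sum.inr ⟨fun j => ⟨u j / p, ?_⟩, ?_⟩, ?_⟩
      · rw [Nat.div_lt_iff_lt_mul hp]
        have := hu j
        rwa [mul_comm] at this
      · intro h'
        refine h (fun j => ?_)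
        have := h' j
        simp only at this
        rw [Nat.div_lt_iff_lt_mul hp] at this
        rwa [mul_comm] at this
      · exact (inCube_grid hp).2 (fun j => rfl)
  uniq u i i' h h' := by
    have hl : ∀ w : Fin 3 → Fin p, InCube u (fun j => (w j : ℕ) * (p + 1)) (p + 1) →
        ∀ j, u j < p * (p + 1) := by
      intro w hw j
      have h1 : (w j : ℕ) + 1 ≤ p := (w j).2
      have h2 := (hw j).2
      calc u j < (w j : ℕ) * (p + 1) + (p + 1) := h2
        _ = ((w j : ℕ) + 1) * (p + 1) := by ring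
        _ ≤ p * (p + 1) := Nat.mul_le_mul_right _ h1
    have hr : ∀ w : {w : Fin 3 → Fin (p + 2) // ¬ ∀ j, (w j : ℕ) < p + 1},
        InCube u (fun j => (w.1 j : ℕ) * p) p → ¬ ∀ j, u j < p * (p + 1) := by
      intro w hw hall
      refine w.2 (fun j => ?_)
      have h2 := (hw j).1
      have h3 := hall j
      have h4 : (w.1 j : ℕ) * p < (p + 1) * p := by
        calc (w.1 j : ℕ) * p ≤ u j := h2
          _ < p * (p + 1) := h3
          _ = (p + 1) * p := by ring
      exact lt_of_mul_lt_mul_right h4 (Nat.zero_le p)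
    rcases i with w | w <;> rcases i' with w' | w'
    · congr 1
      funext j
      apply Fin.ext
      rw [← (inCube_grid (by omega) (w := fun j => (w j : ℕ))).1 h j,
        ← (inCube_grid (by omega) (w := fun j => (w' j : ℕ))).1 h' j]
    · exact absurd (hl w h) (hr w' h')
    · exact absurd (hl w' h') (hr w h)
    · congr 1
      apply Subtype.ext
      funext j
      apply Fin.ext
      rw [← (inCube_grid hp (w := fun j => (w.1 j : ℕ))).1 h j,
        ← (inCube_grid hp (w := fun j => (w'.1 j : ℕ))).1 h' j]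

/-- existence of an integer tiling with `N` cubes -/
def Has (p L N : ℕ) : Prop := Nonempty (IntTiling p L (Fin N))

lemma has_of {p L : ℕ} {ι : Type} [Fintype ι] (T : IntTiling p L ι) :
    Has p L (Fintype.card ι) := by
  let e := (Fintype.equivFin ι).symm
  exact ⟨{ c := fun i => T.c (e i)
           a := fun i => T.a (e i)
           size := fun i => T.size (e i)
           inside := fun i j => T.inside (e i) j
           cover := fun u hu => by
             obtain ⟨i, hi⟩ := T.cover u hu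
             exact ⟨e.symm i, by rw [e.apply_symm_apply]; exact hi⟩
           uniq := fun u i i' h h' => e.injective (T.uniq u _ _ h h') }⟩

lemma has_cast {p L L' N N' : ℕ} (h : Has p L N) (hL : L = L') (hN : N = N') : Has p L' N' := by
  subst hL hN
  exact h

lemma has_zero (p : ℕ) (hp : 0 < p) : Has p (p * (p + 2)) ((p + 2) ^ 3) :=
  has_cast (has_of (gridTiling p (p + 2) p hp (Or.inl rfl))) (by ring) (by simp)

lemma has_two (p : ℕ) : Has p (p * (p + 2)) (p ^ 3) :=
  has_cast (has_of (gridTiling p p (p + 2) (by omega) (Or.inr (Or.inr rfl)))) rfl (by simp)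

lemma has_one (p : ℕ) (hp : 0 < p) :
    Has p (p * (p + 2)) (p ^ 3 + ((p + 2) ^ 3 - (p + 1) ^ 3)) := by
  classical
  refine has_cast (has_of (mixTiling p hp)) rfl ?_
  rw [Fintype.card_sum, Fintype.card_subtype_compl]
  have h1 : Fintype.card {w : Fin 3 → Fin (p + 2) // ∀ j, (w j : ℕ) < p + 1} = (p + 1) ^ 3 := by
    have e : {w : Fin 3 → Fin (p + 2) // ∀ j, (w j : ℕ) < p + 1} ≃ (Fin 3 → Fin (p + 1)) :=
      { toFun := fun w j => ⟨w.1 j, w.2 j⟩
        invFun := fun w => ⟨fun j => ⟨w j, by have := (w j).2; omega⟩, fun j => (w j).2⟩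
        left_inv := fun w => rfl
        right_inv := fun w => rfl }
    rw [Fintype.card_congr e]
    simp
  rw [h1]
  simp

/-- substitution of tilings in the cells of a coarse grid -/
lemma has_subst {p s m : ℕ} (hs : 0 < s) (N : (Fin 3 → Fin m) → ℕ) (h : ∀ v, Has p s (N v)) :
    Has p (m * s) (∑ v, N v) := by
  classical
  have T : ∀ v, IntTiling p s (Fin (N v)) := fun v => (h v).some
  have hdiv : ∀ (v : Fin 3 → Fin m) (i : Fin (N v)) (u : Fin 3 → ℕ),
      InCube u (fun j => (v j : ℕ) * s + (T v).c i j) ((T v).a i) → ∀ j, u j / s = v j := by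
    intro v i u hu j
    have h1 := hu j
    have h2 := (T v).inside i j
    refine Nat.div_eq_of_lt_le ?_ ?_
    · have := h1.1
      simp only at this
      omega
    · have := h1.2
      simp only at this
      rw [add_mul, one_mul]
      omega
  have hmod : ∀ (v : Fin 3 → Fin m) (i : Fin (N v)) (u : Fin 3 → ℕ),
      InCube u (fun j => (v j : ℕ) * s + (T v).c i j) ((T v).a i) →
      InCube (fun j => u j % s) ((T v).c i) ((T v).a i) := by
    intro v i u hu j
    have h1 := hu j
    have h2 := hdiv v i u hu j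
    have h3 := Nat.div_add_mod (u j) s
    rw [h2, mul_comm] at h3
    simp only at h1 ⊢
    constructor <;> omega
  let T' : IntTiling p (m * s) (Σ v : Fin 3 → Fin m, Fin (N v)) :=
    { c := fun i j => (i.1 j : ℕ) * s + (T i.1).c i.2 j
      a := fun i => (T i.1).a i.2
      size := fun i => (T i.1).size i.2
      inside := fun i j => by
        have h1 : (i.1 j : ℕ) + 1 ≤ m := (i.1 j).2
        have h2 := (T i.1).inside i.2 j
        calc (i.1 j : ℕ) * s + (T i.1).c i.2 j + (T i.1).a i.2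
            = (i.1 j : ℕ) * s + ((T i.1).c i.2 j + (T i.1).a i.2) := by ring
          _ ≤ (i.1 j : ℕ) * s + s := Nat.add_le_add_left h2 _
          _ = ((i.1 j : ℕ) + 1) * s := by ring
          _ ≤ m * s := Nat.mul_le_mul_right s h1
      cover := fun u hu => by
        let v : Fin 3 → Fin m := fun j => ⟨u j / s, by
          rw [Nat.div_lt_iff_lt_mul hs]
          exact hu j⟩
        obtain ⟨i, hi⟩ := (T v).cover (fun j => u j % s) (fun j => Nat.mod_lt _ hs)
        refine ⟨⟨v, i⟩, fun j => ?_⟩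
        have h1 := hi j
        have h3 := Nat.div_add_mod (u j) s
        rw [mul_comm] at h3
        have h4 : (v j : ℕ) = u j / s := rfl
        simp only at h1 ⊢
        rw [h4]
        constructor <;> omega
      uniq := fun u i i' h h' => by
        obtain ⟨v, i⟩ := i
        obtain ⟨v', i'⟩ := i'
        have hv : v = v' := by
          funext j
          apply Fin.ext
          rw [← hdiv v i u h j, ← hdiv v' i' u h' j]
        subst hv
        have := (T v).uniq _ i i' (hmod v i u h) (hmod v i' u h')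
        rw [this] }
  exact has_cast (has_of T') rfl (by simp)

lemma sum_pattern (M j k x y z : ℕ) (h : j + k ≤ M) :
    ∑ i : Fin M, (if (i : ℕ) < j then x else if (i : ℕ) < j + k then y else z) =
      j * x + k * y + (M - j - k) * z := by
  rw [Fin.sum_univ_eq_sum_range (fun i => if i < j then x else if i < j + k then y else z)]
  obtain ⟨r, rfl⟩ := Nat.exists_eq_add_of_le h
  rw [Finset.sum_range_add, Finset.sum_range_add]
  have h1 : ∑ i ∈ Finset.range j, (if i < j then x else if i < j + k then y else z) = j * x := by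
    rw [Finset.sum_congr rfl (g := fun _ => x)]
    · simp
    · intro i hi
      rw [if_pos (Finset.mem_range.1 hi)]
  have h2 : ∑ i ∈ Finset.range k, (if j + i < j then x else if j + i < j + k then y else z) =
      k * y := by
    rw [Finset.sum_congr rfl (g := fun _ => y)]
    · simp
    · intro i hi
      have := Finset.mem_range.1 hi
      rw [if_neg (by omega), if_pos (by omega)]
  have h3 : ∑ i ∈ Finset.range r,
      (if j + k + i < j then x else if j + k + i < j + k then y else z) = r * z := by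
    rw [Finset.sum_congr rfl (g := fun _ => z)]
    · simp
    · intro i hi
      rw [if_neg (by omega), if_neg (by omega)]
  rw [h1, h2, h3]
  congr 2
  omega

lemma has_total (p m j k : ℕ) (hp : 0 < p) (h : j + k ≤ m ^ 3) :
    Has p (m * (p * (p + 2)))
      (j * (p ^ 3 + ((p + 2) ^ 3 - (p + 1) ^ 3)) + k * p ^ 3 + (m ^ 3 - j - k) * (p + 2) ^ 3) := by
  classical
  let e : (Fin 3 → Fin m) ≃ Fin (m ^ 3) := Fintype.equivFinOfCardEq (by simp)
  let N : (Fin 3 → Fin m) → ℕ := fun v =>
    if (e v : ℕ) < j then p ^ 3 + ((p + 2) ^ 3 - (p + 1) ^ 3)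
      else if (e v : ℕ) < j + k then p ^ 3 else (p + 2) ^ 3
  have hN : ∀ v, Has p (p * (p + 2)) (N v) := by
    intro v
    simp only [N]
    split_ifs
    · exact has_one p hp
    · exact has_two p
    · exact has_zero p hp
  refine has_cast (has_subst (by positivity) N hN) rfl ?_
  rw [← sum_pattern (m ^ 3) j k _ _ _ h, ← e.sum_comp]

/-- For every `p ≥ 1` and all large `n` there is an integer tiling by exactly `n` cubes. -/
lemma has_all (p : ℕ) (hp : 0 < p) : ∃ N₀ : ℕ, ∀ n ≥ N₀, ∃ L, 0 < L ∧ Has p L n := by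
  set A : ℕ := 3 * p ^ 2 + 3 * p + 1 with hA
  set B : ℕ := 2 * (3 * p ^ 2 + 6 * p + 4) with hB
  set q : ℕ := (p + 2) ^ 3 with hq
  have hcop : Nat.gcd A B = 1 := by
    have h1 : Odd A := by
      rw [hA]
      have : Even (p * (p + 1)) := Nat.even_mul_succ_self p
      obtain ⟨r, hr⟩ := this
      exact ⟨3 * r, by nlinarith⟩
    have h2 : Nat.Coprime A 2 := h1.coprime_two_right
    have h3 : Nat.Coprime A (3 * p ^ 2 + 6 * p + 4) := by
      have h4 : 3 * p ^ 2 + 6 * p + 4 = (3 * (p + 1)) + A := by rw [hA]; ring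
      rw [h4, Nat.coprime_add_self_right]
      have h5 : A = p * (3 * (p + 1)) + 1 := by rw [hA]; ring
      rw [h5, mul_comm]
      exact (Nat.coprime_mul_left_add_left 1 (3 * (p + 1)) p).2 (Nat.coprime_one_left _)
    exact Nat.Coprime.mul_right h2 h3
  have hq0 : 0 < q := by rw [hq]; positivity
  refine ⟨(3 * q + A * B + 1) ^ 3 * q, fun n hn => ?_⟩
  -- the least admissible `m`
  have hex : ∃ m, n + A * B ≤ m ^ 3 * q := by
    refine ⟨n + A * B, ?_⟩
    calc n + A * B ≤ (n + A * B) ^ 3 := Nat.le_self_pow (by norm_num) _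
      _ ≤ (n + A * B) ^ 3 * q := Nat.le_mul_of_pos_right _ hq0
  classical
  set m := Nat.find hex with hm
  have hm1 : n + A * B ≤ m ^ 3 * q := Nat.find_spec hex
  have hmlarge : 3 * q + A * B + 1 ≤ m := by
    by_contra hcon
    push Not at hcon
    have h1 : m ^ 3 * q < (3 * q + A * B + 1) ^ 3 * q :=
      Nat.mul_lt_mul_of_pos_right (Nat.pow_lt_pow_left hcon (by norm_num)) hq0
    omega
  obtain ⟨l, hl⟩ : ∃ l, m = l + 1 := ⟨m - 1, by omega⟩
  have hm2 : l ^ 3 * q < n + A * B := by
    have := Nat.find_min hex (m := l) (by omega)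
    omega
  obtain ⟨r, hr⟩ : ∃ r, m ^ 3 * q = n + r := ⟨m ^ 3 * q - n, by omega⟩
  have hrAB : A * B ≤ r := by omega
  obtain ⟨j, k, hjk⟩ := Nat.exists_add_mul_eq_of_gcd_dvd_of_mul_pred_le A B r
    (by rw [hcop]; exact one_dvd r)
    (le_trans (Nat.mul_le_mul (Nat.pred_le A) (Nat.pred_le B)) hrAB)
  have hA0 : 0 < A := by rw [hA]; positivity
  have hB0 : 0 < B := by rw [hB]; positivity
  have hjkr : j + k ≤ r := by
    have h1 : j ≤ j * A := Nat.le_mul_of_pos_right _ hA0
    have h2 : k ≤ k * B := Nat.le_mul_of_pos_right _ hB0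
    omega
  have hrm : r ≤ m ^ 3 := by
    have h1 : m ^ 3 * q = l ^ 3 * q + (3 * l ^ 2 + 3 * l + 1) * q := by
      rw [hl]; ring
    have h2 : r ≤ (3 * l ^ 2 + 3 * l + 1) * q + A * B := by omega
    have h3 : 3 * q + A * B ≤ l := by omega
    have h4 : (3 * l ^ 2 + 3 * l + 1) * q + A * B ≤ (l + 1) ^ 3 := by
      have h5 : (3 * l ^ 2 + 3 * l + 1) * q ≤ (l + 1) ^ 2 * (3 * q) := by
        nlinarith [Nat.zero_le (l * q), Nat.zero_le q]
      have h6 : A * B ≤ (l + 1) ^ 2 * (A * B) := Nat.le_mul_of_pos_left _ (by positivity)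
      calc (3 * l ^ 2 + 3 * l + 1) * q + A * B ≤ (l + 1) ^ 2 * (3 * q) + (l + 1) ^ 2 * (A * B) :=
            Nat.add_le_add h5 h6
        _ = (l + 1) ^ 2 * (3 * q + A * B) := by ring
        _ ≤ (l + 1) ^ 2 * (l + 1) := Nat.mul_le_mul_left _ (by omega)
        _ = (l + 1) ^ 3 := by ring
    rw [hl]
    omega
  have hle : j + k ≤ m ^ 3 := hjkr.trans hrm
  refine ⟨m * (p * (p + 2)), by have : 0 < m := by omega
                                positivity, has_cast (has_total p m j k hp hle) rfl ?_⟩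
  have e1 : (p + 2) ^ 3 - (p + 1) ^ 3 = 3 * p ^ 2 + 9 * p + 7 := by
    have : (p + 2) ^ 3 = (p + 1) ^ 3 + (3 * p ^ 2 + 9 * p + 7) := by ring
    omega
  obtain ⟨t, ht⟩ : ∃ t, m ^ 3 = j + k + t := ⟨m ^ 3 - (j + k), by omega⟩
  have e2 : m ^ 3 - j - k = t := by omega
  rw [e1, e2]
  have e3 : (j + k + t) * (p + 2) ^ 3 = n + (j * A + k * B) := by
    rw [← ht, ← hq, hr, hjk]
  have e4 : (p ^ 3 + (3 * p ^ 2 + 9 * p + 7)) + A = (p + 2) ^ 3 := by rw [hA]; ring
  have e5 : p ^ 3 + B = (p + 2) ^ 3 := by rw [hB]; ring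
  have e6 : j * (p + 2) ^ 3 = j * (p ^ 3 + (3 * p ^ 2 + 9 * p + 7)) + j * A := by
    rw [← e4]; ring
  have e7 : k * (p + 2) ^ 3 = k * p ^ 3 + k * B := by
    rw [← e5]; ring
  have e8 : (j + k + t) * (p + 2) ^ 3 = j * (p + 2) ^ 3 + k * (p + 2) ^ 3 + t * (p + 2) ^ 3 := by
    ring
  omega

/-! ### Real tilings -/

lemma interior_cube (x : Fin 3 → ℝ) (a : ℝ) :
    interior (cube x a) = {y | ∀ i, x i < y i ∧ y i < x i + a} := by
  rw [cube, ← pi_univ_Icc, interior_pi_set finite_univ]
  ext y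
  simp [interior_Icc]

lemma real_of_int {p L n : ℕ} (hp : 0 < p) (hL : 0 < L) (h : Has p L n) :
    ∃ (x : Fin n → Fin 3 → ℝ) (a : Fin n → ℝ), IsTiling n x a ∧
      (range a ⊆ {(p : ℝ) / L, ((p + 1 : ℕ) : ℝ) / L, ((p + 2 : ℕ) : ℝ) / L}) := by
  obtain ⟨T⟩ := h
  have hL' : (0 : ℝ) < L := by exact_mod_cast hL
  refine ⟨fun i j => (T.c i j : ℝ) / L, fun i => (T.a i : ℝ) / L, ⟨?_, ?_, ?_⟩, ?_⟩
  · intro i
    have h1 : 0 < T.a i := by rcases T.size i with h | h | h <;> omega
    have h2 : (0 : ℝ) < T.a i := by exact_mod_cast h1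
    positivity
  · intro i i' hne
    rw [Set.disjoint_left]
    intro y hy hy'
    rw [interior_cube] at hy hy'
    apply hne
    have key : ∀ i, (∀ j, (T.c i j : ℝ) / L < y j ∧ y j < (T.c i j : ℝ) / L + (T.a i : ℝ) / L) →
        InCube (fun j => ⌊(L : ℝ) * y j⌋₊) (T.c i) (T.a i) := by
      intro i hi j
      obtain ⟨h1, h2⟩ := hi j
      rw [div_lt_iff₀ hL'] at h1
      rw [← add_div, lt_div_iff₀ hL'] at h2
      have h0 : (0 : ℝ) ≤ L * y j := by
        have : (0 : ℝ) ≤ (T.c i j : ℝ) := Nat.cast_nonneg _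
        linarith
      constructor
      · exact Nat.le_floor (by linarith)
      · rw [Nat.floor_lt h0]
        push_cast
        linarith
    exact T.uniq _ i i' (key i hy) (key i' hy')
  · apply Subset.antisymm
    · intro y hy
      rw [mem_iUnion] at hy
      obtain ⟨i, h1, h2⟩ := hy
      constructor
      · intro j
        exact le_trans (by simp only [Pi.zero_apply]; positivity) (h1 j)
      · intro j
        refine (h2 j).trans ?_
        have h3 : ((T.c i j : ℝ) + T.a i) ≤ L := by exact_mod_cast T.inside i j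
        simp only [Pi.one_apply]
        rw [← add_div, div_le_one hL']
        exact h3
    · rintro y ⟨h1, h2⟩
      -- the cell containing `y`
      let u : Fin 3 → ℕ := fun j => min ⌊(L : ℝ) * y j⌋₊ (L - 1)
      obtain ⟨i, hi⟩ := T.cover u (fun j => by
        have : u j ≤ L - 1 := min_le_right _ _
        omega)
      rw [mem_iUnion]
      have h3 : ∀ j, (u j : ℝ) ≤ L * y j ∧ (L : ℝ) * y j ≤ u j + 1 := by
        intro j
        have h0 : (0 : ℝ) ≤ L * y j := mul_nonneg hL'.le (h1 j)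
        constructor
        · calc (u j : ℝ) ≤ (⌊(L : ℝ) * y j⌋₊ : ℝ) := by exact_mod_cast min_le_left _ _
            _ ≤ L * y j := Nat.floor_le h0
        · rcases le_total ⌊(L : ℝ) * y j⌋₊ (L - 1) with h | h
          · have : u j = ⌊(L : ℝ) * y j⌋₊ := min_eq_left h
            rw [this]
            exact (Nat.lt_floor_add_one _).le
          · have : u j = L - 1 := min_eq_right h
            rw [this, Nat.cast_sub hL]
            push_cast
            have h4 : y j ≤ 1 := h2 j
            nlinarith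
      refine ⟨i, ?_, ?_⟩
      · intro j
        have h4 : (T.c i j : ℝ) ≤ u j := by exact_mod_cast (hi j).1
        simp only
        rw [div_le_iff₀ hL']
        linarith [(h3 j).1]
      · intro j
        have h4 : (u j : ℝ) + 1 ≤ T.c i j + T.a i := by exact_mod_cast (hi j).2
        simp only
        rw [← add_div, le_div_iff₀ hL']
        linarith [(h3 j).2]
  · rintro _ ⟨i, rfl⟩
    rcases T.size i with h | h | h <;> simp [h]

lemma rho_bounds {p L n : ℕ} (hp : 0 < p) (hL : 0 < L) (hn : 0 < n) (a : Fin n → ℝ)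
    (h : range a ⊆ {(p : ℝ) / L, ((p + 1 : ℕ) : ℝ) / L, ((p + 2 : ℕ) : ℝ) / L}) :
    1 ≤ rho a ∧ rho a ≤ 1 + 2 / p := by
  have hL' : (0 : ℝ) < L := by exact_mod_cast hL
  have hp' : (0 : ℝ) < p := by exact_mod_cast hp
  have : Nonempty (Fin n) := ⟨⟨0, hn⟩⟩
  have hlo : ∀ i, (p : ℝ) / L ≤ a i := by
    intro i
    rcases h ⟨i, rfl⟩ with h | h | h <;> rw [h]
    · exact div_le_div_of_nonneg_right (by push_cast; linarith) hL'.le
    · exact div_le_div_of_nonneg_right (by push_cast; linarith) hL'.le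
  have hhi : ∀ i, a i ≤ ((p : ℝ) + 2) / L := by
    intro i
    rcases h ⟨i, rfl⟩ with h | h | h <;> rw [h]
    · exact div_le_div_of_nonneg_right (by linarith) hL'.le
    · exact div_le_div_of_nonneg_right (by push_cast; linarith) hL'.le
    · exact div_le_div_of_nonneg_right (by push_cast; linarith) hL'.le
  have hba : BddAbove (range a) := ⟨_, by rintro _ ⟨i, rfl⟩; exact hhi i⟩
  have hbb : BddBelow (range a) := ⟨_, by rintro _ ⟨i, rfl⟩; exact hlo i⟩
  have h1 : (p : ℝ) / L ≤ ⨅ i, a i := le_ciInf hlo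
  have h2 : (⨆ i, a i) ≤ ((p : ℝ) + 2) / L := ciSup_le hhi
  have h3 : (⨅ i, a i) ≤ ⨆ i, a i := (ciInf_le hbb ⟨0, hn⟩).trans (le_ciSup hba ⟨0, hn⟩)
  have h4 : 0 < ⨅ i, a i := lt_of_lt_of_le (by positivity) h1
  constructor
  · rw [rho, le_div_iff₀ h4]
    linarith
  · rw [rho, div_le_iff₀ h4]
    refine h2.trans ?_
    calc ((p : ℝ) + 2) / L = (1 + 2 / p) * (p / L) := by field_simp
      _ ≤ (1 + 2 / p) * ⨅ i, a i := mul_le_mul_of_nonneg_left h1 (by positivity)

/-- **Q1 has a positive answer**: three sizes suffice with ratio tending to `1`. -/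
theorem result : ∃ (n₀ : ℕ) (x : ∀ n : ℕ, Fin n → Fin 3 → ℝ) (a : ∀ n : ℕ, Fin n → ℝ),
    (∀ n ≥ n₀, IsTiling n (x n) (a n) ∧ (range (a n)).ncard ≤ 3) ∧
      Tendsto (fun n => rho (a n)) atTop (𝓝 1) := by
  choose N₀ hN₀ using fun p : ℕ => has_all (p + 1) (Nat.succ_pos p)
  -- the index `P n → ∞`
  let P : ℕ → ℕ := fun n => Nat.findGreatest (fun p => N₀ p ≤ n) n
  have hP : ∀ n, N₀ 0 ≤ n → N₀ (P n) ≤ n := by
    intro n hn
    exact Nat.findGreatest_spec (P := fun p => N₀ p ≤ n) (Nat.zero_le n) hn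
  have hPt : Tendsto P atTop atTop := by
    rw [tendsto_atTop]
    intro K
    filter_upwards [eventually_ge_atTop (max K (N₀ K))] with n hn
    exact Nat.le_findGreatest ((le_max_left _ _).trans hn) ((le_max_right _ _).trans hn)
  have hmain : ∀ n, N₀ 0 ≤ n → ∃ (L : ℕ) (x : Fin n → Fin 3 → ℝ) (a : Fin n → ℝ), 0 < L ∧
      IsTiling n x a ∧ (range a ⊆ {((P n + 1 : ℕ) : ℝ) / L, ((P n + 1 + 1 : ℕ) : ℝ) / L,
        ((P n + 1 + 2 : ℕ) : ℝ) / L}) := by
    intro n hn
    obtain ⟨L, hL, hh⟩ := hN₀ (P n) n (hP n hn)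
    obtain ⟨x, a, h1, h2⟩ := real_of_int (Nat.succ_pos (P n)) hL hh
    exact ⟨L, x, a, hL, h1, h2⟩
  classical
  let x : ∀ n : ℕ, Fin n → Fin 3 → ℝ := fun n =>
    if h : N₀ 0 ≤ n then (hmain n h).choose_spec.choose else 0
  let a : ∀ n : ℕ, Fin n → ℝ := fun n =>
    if h : N₀ 0 ≤ n then (hmain n h).choose_spec.choose_spec.choose else 0
  have hxa : ∀ n, N₀ 0 ≤ n → ∃ L : ℕ, 0 < L ∧
      IsTiling n (x n) (a n) ∧ (range (a n) ⊆ {((P n + 1 : ℕ) : ℝ) / L,
        ((P n + 1 + 1 : ℕ) : ℝ) / L, ((P n + 1 + 2 : ℕ) : ℝ) / L}) := by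
    intro n h
    have hx : x n = (hmain n h).choose_spec.choose := dif_pos h
    have ha : a n = (hmain n h).choose_spec.choose_spec.choose := dif_pos h
    rw [hx, ha]
    exact ⟨_, (hmain n h).choose_spec.choose_spec.choose_spec⟩
  refine ⟨N₀ 0, x, a, ?_, ?_⟩
  · intro n hn
    obtain ⟨L, -, h1, h2⟩ := hxa n hn
    refine ⟨h1, (ncard_le_ncard h2 (by simp)).trans ?_⟩
    refine (ncard_insert_le _ _).trans (Nat.succ_le_succ ?_)
    refine (ncard_insert_le _ _).trans (Nat.succ_le_succ ?_)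
    rw [ncard_singleton]
  · have hlim : Tendsto (fun n => 1 + 2 / ((P n + 1 : ℕ) : ℝ)) atTop (𝓝 1) := by
      have h1 : Tendsto (fun n => ((P n + 1 : ℕ) : ℝ)) atTop atTop :=
        tendsto_natCast_atTop_atTop.comp (tendsto_atTop_mono (fun n => Nat.le_succ (P n)) hPt)
      have h2 := (tendsto_const_nhds (x := (2 : ℝ))).div_atTop h1
      simpa using (tendsto_const_nhds (x := (1 : ℝ))).add h2
    refine tendsto_of_tendsto_of_tendsto_of_le_of_le' (tendsto_const_nhds (x := (1 : ℝ))) hlim ?_ ?_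
    · filter_upwards [eventually_ge_atTop (max 1 (N₀ 0))] with n hn
      obtain ⟨L, hL, -, h2⟩ := hxa n ((le_max_right _ _).trans hn)
      exact (rho_bounds (Nat.succ_pos _) hL ((le_max_left _ _).trans hn) (a n) h2).1
    · filter_upwards [eventually_ge_atTop (max 1 (N₀ 0))] with n hn
      obtain ⟨L, hL, -, h2⟩ := hxa n ((le_max_right _ _).trans hn)
      exact (rho_bounds (Nat.succ_pos _) hL ((le_max_left _ _).trans hn) (a n) h2).2

end Pool.Agent.Results.MP_695dce_co.ThreeSizes
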